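import Pool.Agent.DCW.S0
import Pool.Agent.DCW.S1
import Pool.Agent.DCW.S2
import Pool.Agent.DCW.B1
import Pool.Agent.DCW.B2
import Pool.Agent.DCW.G1
import Pool.Agent.DCW.G2
import Pool.Agent.DCW.G3
import Pool.Agent.DCW.M
import Pool.Agent.DCW.Sound

/-!
# Domination of 3-connected cubic graphs of cutwidth at most six

The vertices are added one by one along a linear ordering. Everything that matters of the part which
has been built is a table of the sizes of the partial dominating sets, and a table of the edge cuts.
A finite family of such tables which is closed under the addition of a vertex is given explicitly in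
the modules `Pool.Agent.DCW.D3` to `D6`, and its closure is checked by the kernel.
-/

set_option autoImplicit false

namespace Pool.Agent.Results.MP_b5ee1a_co.CutwidthSix

open Pool.Agent.DCW

/-- Let `G` be a 3-connected cubic graph on `n` vertices with an ordering of the vertices such that
for every `i` at most six edges join the first `i` vertices to the others. Then `G` has a dominating
set with at most `(n + 1) / 3` vertices. -/
theorem result (V : Type) [Fintype V] [DecidableEq V] (G : SimpleGraph V) [DecidableRel G.Adj]
    (hreg : G.IsRegularOfDegree 3)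
    (hcon : 4 ≤ Fintype.card V ∧
      ∀ S : Finset V, S.card ≤ 2 → (G.induce ((↑S : Set V)ᶜ)).Connected)
    (e : V ≃ Fin (Fintype.card V))
    (hcut : ∀ i : ℕ, (Finset.univ.filter fun d : V × V =>
      (e d.1 : ℕ) < i ∧ i ≤ (e d.2 : ℕ) ∧ G.Adj d.1 d.2).card ≤ 6) :
    ∃ D : Finset V, 3 * D.card ≤ Fintype.card V + 1 ∧
      ∀ v : V, v ∈ D ∨ ∃ u ∈ D, G.Adj u v := by
  have hcut' : ∀ i : ℕ, (bd G (Finset.univ.filter fun v => (e v : ℕ) < i)).card ≤ 6 := by
    intro i
    have h : bd G (Finset.univ.filter fun v => (e v : ℕ) < i) =
        Finset.univ.filter fun d : V × V =>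
          (e d.1 : ℕ) < i ∧ i ≤ (e d.2 : ℕ) ∧ G.Adj d.1 d.2 := by
      ext d
      simp only [bd, Finset.mem_filter, Finset.mem_univ, true_and, not_lt]
    rw [h]
    exact hcut i
  have hS1 := thm_S1 thm_S0
  have hS2 := thm_S2 thm_S0
  exact thm_M hS1 hS2 (thm_G1 (thm_B1 thm_S0)) (thm_G2 (thm_B2 thm_S0)) LL closed_LL V G hreg
    hcon.1 (thm_G3 V G hreg hcon) e hcut'

end Pool.Agent.Results.MP_b5ee1a_co.CutwidthSix
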